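import Pool.Agent.W778.UI.A

/-!
Zeros of a nonzero function of the class: Jensen's inequality gives summability.
-/

set_option autoImplicit false

namespace Pool.Agent.R245.UI

open Set Filter Topology Metric Pool.Agent.W778.UI

/-- Jensen's inequality for finite sets of zeros -/
theorem jcount0 {f : ℂ → ℂ} {c : ℂ} {r R M : ℝ} (hf : AnalyticOnNhd ℂ f (closedBall c R))
    (hr : 0 < r) (hrR : r < R)
    (hM1 : 1 ≤ M) (hc : f c ≠ 0) (hM : ∀ z, ‖z - c‖ ≤ R → ‖f z‖ ≤ M) (S : Finset ℂ)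
    (hS : ∀ s ∈ S, ‖s - c‖ ≤ r) :
    ∑ s ∈ S, (analyticOrderNatAt f s : ℝ) ≤ Real.log (M / ‖f c‖) / Real.log (R / r) := by
  classical
  have hR : 0 < R := hr.trans hrR
  have habs : |R| = R := abs_of_pos hR
  have habr : |r| = r := abs_of_pos hr
  have hfr : AnalyticOnNhd ℂ f (closedBall c r) := hf.mono (closedBall_subset_closedBall hrR.le)
  have h1 := AnalyticOnNhd.sum_divisor_le (c := c) (r := r) (R := R) (M := M) (f := f)
    (by rw [habr]; exact hr) (by rw [habr, habs]; exact hrR) hM1 (by rw [habs]; exact hf) hc (by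
      intro z hz
      rw [habs, mem_sphere_iff_norm] at hz
      exact hM z hz.le)
  rw [habr] at h1
  refine le_trans ?_ h1
  have hdiv : ∀ u ∈ closedBall c r, MeromorphicOn.divisor f (closedBall c r) u =
      (analyticOrderNatAt f u : ℤ) := by
    intro u hu
    rw [MeromorphicOn.AnalyticOnNhd.divisor_apply hfr hu]
    unfold analyticOrderNatAt
    cases h : analyticOrderAt f u with
    | top => simp
    | coe n => simp
  have hfin : (MeromorphicOn.divisor f (closedBall c r)).support.Finite :=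
    (MeromorphicOn.divisor f (closedBall c r)).finiteSupport (isCompact_closedBall c r)
  rw [finsum_eq_sum_of_support_subset (s := S ∪ hfin.toFinset)]
  · push_cast
    have h2 : ∑ s ∈ S, (analyticOrderNatAt f s : ℝ) =
        ∑ s ∈ S, ((MeromorphicOn.divisor f (closedBall c r) s : ℤ) : ℝ) := by
      refine Finset.sum_congr rfl fun s hs => ?_
      rw [hdiv s (by rw [mem_closedBall_iff_norm]; exact hS s hs)]
      push_cast
      rfl
    rw [h2]
    refine Finset.sum_le_sum_of_subset_of_nonneg Finset.subset_union_left ?_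
    intro u _ _
    by_cases hu : u ∈ closedBall c r
    · rw [hdiv u hu]
      exact_mod_cast Nat.zero_le _
    · rw [Function.locallyFinsuppWithin.apply_eq_zero_of_notMem _ hu]
      simp
  · intro u hu
    rw [Finset.coe_union, Set.Finite.coe_toFinset]
    exact Or.inr hu

/-- An entire function which is not identically zero has positive finite order at a zero. -/
lemma one_le_order {F : ℂ → ℂ} (hF : Differentiable ℂ F) {c : ℂ} (hc : F c ≠ 0) {s : ℂ}
    (hs : F s = 0) : 1 ≤ analyticOrderNatAt F s := by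
  have han : AnalyticOnNhd ℂ F univ := fun z _ => hF.analyticAt z
  have hne : analyticOrderAt F s ≠ ⊤ := by
    intro h
    rw [analyticOrderAt_eq_top] at h
    have := han.eqOn_zero_of_preconnected_of_eventuallyEq_zero isPreconnected_univ
      (mem_univ s) h
    exact hc (this (mem_univ c))
  have h0 : analyticOrderAt F s ≠ 0 := by
    rw [(hF.analyticAt s).analyticOrderAt_ne_zero]
    exact hs
  unfold analyticOrderNatAt
  rw [Nat.one_le_iff_ne_zero]
  intro h
  rw [ENat.toNat_eq_zero] at h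
  rcases h with h | h
  · exact h0 h
  · exact hne h

lemma rho_le_lin (z : ℂ) : rho z ≤ 3 * ‖z‖ := by
  unfold rho
  have h1 : |z.im| ≤ ‖z‖ := Complex.abs_im_le_norm z
  have h2 : Real.log (1 + ‖z‖ ^ 2) ≤ 2 * ‖z‖ := by
    rw [Real.log_le_iff_le_exp (by positivity)]
    have h3 := Real.quadratic_le_exp_of_nonneg (norm_nonneg z)
    have h4 : Real.exp (2 * ‖z‖) = Real.exp ‖z‖ * Real.exp ‖z‖ := by
      rw [← Real.exp_add]; ring_nf
    rw [h4]
    have h5 := norm_nonneg z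
    have h6 : (1 + ‖z‖) ≤ Real.exp ‖z‖ := by nlinarith
    nlinarith
  linarith

/-- The points of the sequence are polynomially sparse. -/
theorem count {F : ℂ → ℂ} (hF : Differentiable ℂ F) {A B : ℝ} (hA : 0 < A) (hB : 0 < B)
    (hb : ∀ z, ‖F z‖ ≤ A * Real.exp (B * rho z)) {c : ℂ} (hc : F c ≠ 0)
    (a : ℕ → ℂ) (ha : Function.Injective a) (hz : ∀ n, F (a n) = 0) :
    ∃ D : ℝ, 0 < D ∧ ∀ r : ℝ, 0 ≤ r → ∀ S : Finset ℕ, (∀ n ∈ S, ‖a n - c‖ ≤ r) →
      (S.card : ℝ) ≤ D * (1 + r) := by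
  classical
  set L : ℝ := |Real.log (A / ‖F c‖)| + 3 * B * ‖c‖ + 6 * B + 1 with hL
  have hFc : 0 < ‖F c‖ := norm_pos_iff.2 hc
  have hlog2 : 0 < Real.log 2 := Real.log_pos (by norm_num)
  refine ⟨(L + ‖F c‖ + |Real.log ‖F c‖| + |Real.log A| + 1) / Real.log 2, by positivity, ?_⟩
  intro r hr S hS
  set r' : ℝ := 1 + r with hr'
  have hr'1 : 1 ≤ r' := by linarith
  set M : ℝ := max 1 (A * Real.exp (B * (3 * (‖c‖ + 2 * r')))) with hM
  have hM1 : 1 ≤ M := le_max_left _ _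
  have hj := jcount0 (f := F) (c := c) (r := r') (R := 2 * r') (M := M)
    (fun z _ => hF.analyticAt z) (by linarith) (by linarith) hM1 hc (by
      intro z hz
      refine (hb z).trans (le_trans ?_ (le_max_right _ _))
      have h1 : ‖z‖ ≤ ‖c‖ + 2 * r' := by
        have : ‖z‖ ≤ ‖z - c‖ + ‖c‖ := by
          have := norm_add_le (z - c) c
          rwa [sub_add_cancel] at this
        linarith
      have h2 := rho_le_lin z
      have h3 : rho z ≤ 3 * (‖c‖ + 2 * r') := by linarith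
      gcongr) (S.image a) (by
      intro s hs
      obtain ⟨n, hn, rfl⟩ := Finset.mem_image.1 hs
      exact (hS n hn).trans (by linarith))
  have hcard : (S.card : ℝ) ≤ ∑ s ∈ S.image a, (analyticOrderNatAt F s : ℝ) := by
    rw [Finset.sum_image (fun x _ y _ h => ha h)]
    have : ∀ n ∈ S, (1 : ℝ) ≤ (analyticOrderNatAt F (a n) : ℝ) := fun n _ => by
      exact_mod_cast one_le_order hF hc (hz n)
    calc (S.card : ℝ) = ∑ n ∈ S, (1 : ℝ) := by simp
      _ ≤ _ := Finset.sum_le_sum this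
  have e2 : 2 * r' / r' = 2 := by
    field_simp
  rw [e2] at hj
  refine (hcard.trans hj).trans ?_
  rw [div_mul_eq_mul_div]
  apply div_le_div_of_nonneg_right _ hlog2.le
  rw [Real.log_div (by positivity) hFc.ne']
  have hlogM : Real.log M ≤ |Real.log A| + B * (3 * (‖c‖ + 2 * r')) := by
    rw [hM]
    rcases le_total 1 (A * Real.exp (B * (3 * (‖c‖ + 2 * r')))) with h | h
    · rw [max_eq_right h, Real.log_mul hA.ne' (Real.exp_pos _).ne', Real.log_exp]
      have := le_abs_self (Real.log A)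
      linarith
    · rw [max_eq_left h, Real.log_one]
      have := norm_nonneg c
      positivity
  have h5 := neg_abs_le (Real.log ‖F c‖)
  have h6 : 0 ≤ |Real.log (A / ‖F c‖)| := abs_nonneg _
  have h7 : 0 ≤ |Real.log A| := abs_nonneg _
  have h8 : 0 ≤ |Real.log ‖F c‖| := abs_nonneg _
  have h9 := norm_nonneg c
  rw [hL]
  have e : (|Real.log (A / ‖F c‖)| + 3 * B * ‖c‖ + 6 * B + 1 + ‖F c‖ + |Real.log ‖F c‖| +
      |Real.log A| + 1) * (1 + r) = (|Real.log (A / ‖F c‖)| + 3 * B * ‖c‖ + 6 * B + 1 + ‖F c‖ +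
      |Real.log ‖F c‖| + |Real.log A| + 1) * r' := by rw [hr']
  rw [e]
  have h10 : 0 ≤ B * ‖c‖ := by positivity
  nlinarith [mul_nonneg h6 (by linarith : (0:ℝ) ≤ r'), mul_nonneg h7 (by linarith : (0:ℝ) ≤ r' - 1),
    mul_nonneg h8 (by linarith : (0:ℝ) ≤ r' - 1), mul_nonneg h10 (by linarith : (0:ℝ) ≤ r' - 1),
    mul_nonneg hFc.le (by linarith : (0:ℝ) ≤ r'), mul_nonneg hB.le (by linarith : (0:ℝ) ≤ r' - 1)]

/-- Summability of a negative power. -/
theorem summable_pow (a : ℕ → ℂ) (c : ℂ) (D : ℝ) (hD : 0 < D)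
    (h : ∀ r : ℝ, 0 ≤ r → ∀ S : Finset ℕ, (∀ n ∈ S, ‖a n - c‖ ≤ r) → (S.card : ℝ) ≤ D * (1 + r)) :
    Summable (fun n => ((1 + ‖a n - c‖) ^ 3)⁻¹) := by
  classical
  have hs2 : Summable (fun j : ℕ => ((1 + (j : ℝ)) ^ 2)⁻¹) := by
    have := (summable_nat_add_iff 1).2 (Real.summable_nat_pow_inv.2 (by norm_num : 1 < 2))
    refine this.congr fun j => ?_
    push_cast
    rw [add_comm]
  refine summable_of_sum_le (c := 2 * D * ∑' j : ℕ, ((1 + (j : ℝ)) ^ 2)⁻¹)
    (fun n => by positivity) fun S => ?_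
  set t : ℕ → ℕ := fun n => ⌊‖a n - c‖⌋₊ with ht
  have hmaps : ∀ n ∈ S, t n ∈ S.image t := fun n hn => Finset.mem_image_of_mem _ hn
  rw [← Finset.sum_fiberwise_of_maps_to hmaps]
  have hfib : ∀ j ∈ S.image t, ∑ n ∈ S with t n = j, ((1 + ‖a n - c‖) ^ 3)⁻¹ ≤
      2 * D * ((1 + (j : ℝ)) ^ 2)⁻¹ := by
    intro j _
    have h1 : ∀ n ∈ S.filter (fun n => t n = j), ((1 + ‖a n - c‖) ^ 3)⁻¹ ≤ ((1 + (j : ℝ)) ^ 3)⁻¹ := by
      intro n hn
      rw [Finset.mem_filter] at hn
      have h2 : (j : ℝ) ≤ ‖a n - c‖ := by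
        rw [← hn.2]
        exact Nat.floor_le (norm_nonneg _)
      gcongr
    have h3 : ((S.filter (fun n => t n = j)).card : ℝ) ≤ D * (1 + ((j : ℝ) + 1)) := by
      apply h _ (by positivity)
      intro n hn
      rw [Finset.mem_filter] at hn
      rw [← hn.2]
      exact (Nat.lt_floor_add_one _).le
    calc ∑ n ∈ S with t n = j, ((1 + ‖a n - c‖) ^ 3)⁻¹
        ≤ ∑ n ∈ S with t n = j, ((1 + (j : ℝ)) ^ 3)⁻¹ := Finset.sum_le_sum h1
      _ = ((S.filter (fun n => t n = j)).card : ℝ) * ((1 + (j : ℝ)) ^ 3)⁻¹ := by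
          rw [Finset.sum_const, nsmul_eq_mul]
      _ ≤ (D * (1 + ((j : ℝ) + 1))) * ((1 + (j : ℝ)) ^ 3)⁻¹ := by gcongr
      _ ≤ (2 * D * (1 + (j : ℝ))) * ((1 + (j : ℝ)) ^ 3)⁻¹ := by
          have hj : (0 : ℝ) ≤ j := Nat.cast_nonneg j
          have : D * (1 + ((j : ℝ) + 1)) ≤ 2 * D * (1 + (j : ℝ)) := by nlinarith
          gcongr
      _ = 2 * D * ((1 + (j : ℝ)) ^ 2)⁻¹ := by
          have hj : (0 : ℝ) < 1 + j := by positivity
          field_simp
  calc ∑ j ∈ S.image t, ∑ n ∈ S with t n = j, ((1 + ‖a n - c‖) ^ 3)⁻¹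
      ≤ ∑ j ∈ S.image t, 2 * D * ((1 + (j : ℝ)) ^ 2)⁻¹ := Finset.sum_le_sum hfib
    _ = 2 * D * ∑ j ∈ S.image t, ((1 + (j : ℝ)) ^ 2)⁻¹ := by rw [Finset.mul_sum]
    _ ≤ 2 * D * ∑' j : ℕ, ((1 + (j : ℝ)) ^ 2)⁻¹ := by
        have := hs2.sum_le_tsum (S.image t) (fun _ _ => by positivity)
        gcongr

end Pool.Agent.R245.UI
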