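import Mathlib

/-!
Choosing coefficients so that infinitely many linear forms are simultaneously not small.
-/

set_option autoImplicit false

namespace Pool.Agent.R245.UI

open Set Filter Topology Finset

/-- Finite version: a grid point avoiding all small values. -/
theorem select_fin (N : ℕ) (c : ℕ → ℝ) (hc : ∀ n, 0 < c n) (Q : ℕ → ℕ) (hQ : ∀ n, 0 < Q n)
    (hsum : ∑ n ∈ range N, (1 / (Q n : ℝ)) < 1) (M : ℕ → ℕ → ℂ) (hM : ∀ n, M n n = 1) :
    ∃ ε : ℕ → ℝ, (∀ n, 0 ≤ ε n ∧ ε n ≤ 1) ∧ (∀ n, N ≤ n → ε n = 0) ∧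
      ∀ n < N, c n / (2 * Q n) ≤ ‖∑ m ∈ range N, ((ε m * c m : ℝ) : ℂ) * M n m‖ := by
  classical
  set G : Finset (Fin N → ℕ) := Fintype.piFinset (fun n : Fin N => range (Q n)) with hG
  set L : Fin N → (Fin N → ℕ) → ℂ := fun n g =>
    ∑ m : Fin N, ((((g m : ℝ) / Q m) * c m : ℝ) : ℂ) * M n m with hL
  set Bad : Fin N → Finset (Fin N → ℕ) := fun n => G.filter (fun g => ‖L n g‖ < c n / (2 * Q n))
    with hBad
  have hLup : ∀ (n : Fin N) (g : Fin N → ℕ) (i j : ℕ),
      L n (Function.update g n i) - L n (Function.update g n j) =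
        ((((i : ℝ) - j) / Q n * c n : ℝ) : ℂ) := by
    intro n g i j
    simp only [hL]
    rw [← Finset.sum_sub_distrib, Finset.sum_eq_single n]
    · simp only [Function.update_self, hM, mul_one]
      push_cast
      ring
    · intro m _ hm
      simp only [Function.update_of_ne hm]
      ring
    · intro h; exact absurd (Finset.mem_univ _) h
  have hbadcard : ∀ n : Fin N, (Bad n).card * Q n ≤ G.card := by
    intro n
    rw [← Finset.card_range (Q n), ← Finset.card_product]
    apply Finset.card_le_card_of_injOn (fun q : (Fin N → ℕ) × ℕ => Function.update q.1 n q.2)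
    · intro q hq
      simp only [Finset.coe_product, Set.mem_prod, Finset.mem_coe] at hq
      rw [Finset.mem_coe, hG, Fintype.mem_piFinset]
      intro m
      show Function.update q.1 n q.2 m ∈ _
      by_cases hm : m = n
      · subst hm
        simpa using hq.2
      · rw [Function.update_of_ne hm]
        have h1 := hq.1
        rw [hBad, Finset.mem_filter, hG, Fintype.mem_piFinset] at h1
        exact h1.1 m
    · rintro ⟨g, i⟩ hq ⟨g', i'⟩ hq' heq
      simp only [Finset.coe_product, Set.mem_prod, Finset.mem_coe] at hq hq' heq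
      have hi : i = i' := by
        have := congrFun heq n
        simpa using this
      have hoff : ∀ m, m ≠ n → g m = g' m := by
        intro m hm
        have := congrFun heq m
        rwa [Function.update_of_ne hm, Function.update_of_ne hm] at this
      have hg' : g' = Function.update g n (g' n) := by
        funext m
        by_cases hm : m = n
        · subst hm; simp
        · rw [Function.update_of_ne hm, hoff m hm]
      have hg : g = Function.update g n (g n) := by simp
      have hbg : ‖L n g‖ < c n / (2 * Q n) := by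
        have := hq.1; rw [hBad, Finset.mem_filter] at this; exact this.2
      have hbg' : ‖L n g'‖ < c n / (2 * Q n) := by
        have := hq'.1; rw [hBad, Finset.mem_filter] at this; exact this.2
      have hdiff : ‖L n g - L n g'‖ < c n / Q n := by
        have h1 := norm_sub_le (L n g) (L n g')
        have h2 : c n / (2 * Q n) + c n / (2 * Q n) = c n / Q n := by
          have : (Q n : ℝ) ≠ 0 := by exact_mod_cast (hQ n).ne'
          field_simp; ring
        linarith
      rw [hg, hg', hLup n g (g n) (g' n), Complex.norm_real, Real.norm_eq_abs, abs_mul, abs_div,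
        abs_of_pos (hc n), Nat.abs_cast] at hdiff
      have hQn : (0 : ℝ) < Q n := by exact_mod_cast hQ n
      have hlt : |((g n : ℝ) - g' n)| < 1 := by
        have h3 : |((g n : ℝ) - g' n)| / Q n * c n = |((g n : ℝ) - g' n)| * (c n / Q n) := by ring
        rw [h3] at hdiff
        have h4 : 0 < c n / Q n := div_pos (hc n) hQn
        by_contra hge
        push Not at hge
        nlinarith
      have heqn : g n = g' n := by
        have h5 : |((g n : ℤ) - g' n)| < 1 := by exact_mod_cast hlt
        have h6 := Int.abs_lt_one_iff.1 h5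
        omega
      have : g = g' := by
        rw [hg', ← heqn, ← hg]
      rw [this, hi]
  have hGpos : 0 < G.card := by
    rw [hG, Fintype.card_piFinset]
    apply Finset.prod_pos
    intro n _
    rw [Finset.card_range]
    exact hQ n
  have hunion : ((Finset.univ : Finset (Fin N)).biUnion Bad).card < G.card := by
    have h1 : (((Finset.univ : Finset (Fin N)).biUnion Bad).card : ℝ) ≤
        ∑ n : Fin N, ((Bad n).card : ℝ) := by
      exact_mod_cast Finset.card_biUnion_le
    have h2 : ∀ n : Fin N, ((Bad n).card : ℝ) ≤ (1 / (Q n : ℝ)) * G.card := by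
      intro n
      have hQn : (0 : ℝ) < Q n := by exact_mod_cast hQ n
      have h3 : ((Bad n).card : ℝ) * Q n ≤ G.card := by exact_mod_cast hbadcard n
      rw [one_div, inv_mul_eq_div, le_div_iff₀ hQn]
      exact h3
    have h4 : ∑ n : Fin N, ((Bad n).card : ℝ) ≤ (∑ n ∈ range N, (1 / (Q n : ℝ))) * G.card := by
      rw [Finset.sum_mul, ← Fin.sum_univ_eq_sum_range (fun n => 1 / (Q n : ℝ) * (G.card : ℝ))]
      exact Finset.sum_le_sum fun n _ => h2 n
    have h5 : (0 : ℝ) < G.card := by exact_mod_cast hGpos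
    have h6 : (((Finset.univ : Finset (Fin N)).biUnion Bad).card : ℝ) < G.card := by
      calc _ ≤ _ := h1
        _ ≤ _ := h4
        _ < 1 * G.card := by gcongr
        _ = _ := one_mul _
    exact_mod_cast h6
  obtain ⟨g, hgG, hgB⟩ := Finset.exists_mem_notMem_of_card_lt_card hunion
  rw [Finset.mem_biUnion] at hgB
  push Not at hgB
  refine ⟨fun n => if h : n < N then (g ⟨n, h⟩ : ℝ) / Q n else 0, ?_, ?_, ?_⟩
  · intro n
    by_cases h : n < N
    · simp only [h, dif_pos]
      have hQn : (0 : ℝ) < Q n := by exact_mod_cast hQ n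
      refine ⟨by positivity, ?_⟩
      rw [div_le_one hQn]
      rw [hG, Fintype.mem_piFinset] at hgG
      have := Finset.mem_range.1 (hgG ⟨n, h⟩)
      exact_mod_cast this.le
    · simp [h]
  · intro n hn
    simp [Nat.not_lt.2 hn]
  · intro n hn
    have h1 := hgB ⟨n, hn⟩ (Finset.mem_univ _)
    rw [hBad, Finset.mem_filter] at h1
    push Not at h1
    have h2 := h1 hgG
    refine h2.trans (le_of_eq ?_)
    simp only [hL]
    rw [← Fin.sum_univ_eq_sum_range
      (fun m => ((((if h : m < N then (g ⟨m, h⟩ : ℝ) / Q m else 0) * c m : ℝ)) : ℂ) * M n m)]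
    congr 1
    apply Finset.sum_congr rfl
    intro m _
    simp

/-- Infinite version, by compactness. -/
theorem select (c : ℕ → ℝ) (hc : ∀ n, 0 < c n) (Q : ℕ → ℕ) (hQ : ∀ n, 0 < Q n)
    (hsum : ∀ N, ∑ n ∈ range N, (1 / (Q n : ℝ)) < 1) (M : ℕ → ℕ → ℂ) (hM : ∀ n, M n n = 1)
    (hs : ∀ n, Summable fun m => c m * ‖M n m‖) :
    ∃ ε : ℕ → ℝ, (∀ n, 0 ≤ ε n ∧ ε n ≤ 1) ∧
      ∀ n, c n / (2 * Q n) ≤ ‖∑' m, ((ε m * c m : ℝ) : ℂ) * M n m‖ := by
  classical
  have hcont : ∀ n, Continuous fun ε : ℕ → Set.Icc (0 : ℝ) 1 =>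
      ∑' m, (((ε m : ℝ) * c m : ℝ) : ℂ) * M n m := by
    intro n
    refine continuous_tsum (u := fun m => c m * ‖M n m‖) (fun m => ?_) (hs n) (fun m ε => ?_)
    · have : Continuous fun ε : ℕ → Set.Icc (0 : ℝ) 1 => ((ε m : ℝ)) :=
        continuous_subtype_val.comp (continuous_apply m)
      fun_prop
    · rw [norm_mul, Complex.norm_real, Real.norm_eq_abs, abs_mul, abs_of_pos (hc m),
        abs_of_nonneg (ε m).2.1]
      have h1 := (ε m).2.2
      have h2 := hc m
      have h3 : (ε m : ℝ) * c m ≤ 1 * c m := by gcongr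
      rw [one_mul] at h3
      gcongr
  set K : ℕ → Set (ℕ → Set.Icc (0 : ℝ) 1) := fun N =>
    {ε | ∀ n < N, c n / (2 * Q n) ≤ ‖∑' m, (((ε m : ℝ) * c m : ℝ) : ℂ) * M n m‖} with hK
  have hclosed : ∀ N, IsClosed (K N) := by
    intro N
    have : K N = ⋂ n ∈ Set.Iio N,
        {ε | c n / (2 * Q n) ≤ ‖∑' m, (((ε m : ℝ) * c m : ℝ) : ℂ) * M n m‖} := by
      ext ε
      simp [hK]
    rw [this]
    refine isClosed_biInter fun n _ => ?_
    exact isClosed_le continuous_const (hcont n).norm
  have hne : ∀ N, (K N).Nonempty := by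
    intro N
    obtain ⟨ε, h1, h2, h3⟩ := select_fin N c hc Q hQ (hsum N) M hM
    refine ⟨fun n => ⟨ε n, h1 n⟩, fun n hn => ?_⟩
    have h4 := h3 n hn
    refine h4.trans (le_of_eq ?_)
    congr 1
    rw [tsum_eq_sum (s := range N)]
    intro m hm
    rw [Finset.mem_range, not_lt] at hm
    simp [h2 m hm]
  have hinter : (⋂ N, K N).Nonempty := by
    apply IsCompact.nonempty_iInter_of_sequence_nonempty_isCompact_isClosed
    · intro N ε hε n hn
      exact hε n (by omega)
    · exact hne
    · exact (hclosed 0).isCompact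
    · exact hclosed
  obtain ⟨ε, hε⟩ := hinter
  rw [Set.mem_iInter] at hε
  refine ⟨fun n => ε n, fun n => (ε n).2, fun n => ?_⟩
  exact hε (n + 1) n (Nat.lt_succ_self n)

end Pool.Agent.R245.UI
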