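import Pool.Agent.R245.UI.Uniform
import Pool.Agent.R245.UI.Count
import Pool.Agent.R245.UI.Select

/-!
The function with large coefficients at the points of a universal interpolating sequence.
-/

set_option autoImplicit false

namespace Pool.Agent.R245.UI

open Set Filter Topology Metric Pool.Agent.W778.UI

/-- Leibniz rule for multiplication by a linear factor. -/
lemma iteratedDeriv_lin_mul {g : ℂ → ℂ} (hg : Differentiable ℂ g) (b : ℂ) (k : ℕ) :
    iteratedDeriv (k + 1) (fun z => (z - b) * g z) =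
      fun z => (z - b) * iteratedDeriv (k + 1) g z + (k + 1) * iteratedDeriv k g z := by
  have hdk : ∀ k, Differentiable ℂ (iteratedDeriv k g) := fun k => by
    have : ContDiff ℂ (k + 1 : ℕ) g := hg.contDiff
    exact this.differentiable_iteratedDeriv k (by exact_mod_cast Nat.lt_succ_self k)
  have hstep : ∀ k, ∀ z, HasDerivAt (iteratedDeriv k g) (iteratedDeriv (k + 1) g z) z := by
    intro k z
    rw [iteratedDeriv_succ]
    exact (hdk k z).hasDerivAt
  induction k with
  | zero =>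
    rw [iteratedDeriv_succ, iteratedDeriv_zero, iteratedDeriv_succ, iteratedDeriv_zero]
    funext z
    have h1 : HasDerivAt (fun z => (z - b) * g z) (1 * g z + (z - b) * deriv g z) z :=
      ((hasDerivAt_id z).sub_const b).mul (hg z).hasDerivAt
    rw [h1.deriv]
    push_cast
    ring
  | succ k ih =>
    rw [iteratedDeriv_succ, ih]
    funext z
    have h1 : HasDerivAt (fun z => (z - b) * iteratedDeriv (k + 1) g z +
        ((k : ℂ) + 1) * iteratedDeriv k g z)
        ((1 * iteratedDeriv (k + 1) g z + (z - b) * iteratedDeriv (k + 2) g z) +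
          ((k : ℂ) + 1) * iteratedDeriv (k + 1) g z) z :=
      (((hasDerivAt_id z).sub_const b).mul (hstep (k + 1) z)).add ((hstep k z).const_mul _)
    rw [h1.deriv]
    push_cast
    ring

/-- Main construction. -/
theorem main (a : ℕ → ℂ) (p : ℕ → ℕ) (ha : Function.Injective a) (hp : ∀ n, 1 ≤ p n)
    {F : ℂ → ℂ} (hF : Differentiable ℂ F) {A B : ℝ} (hA : 0 < A) (hB : 0 < B)
    (hb : ∀ z, ‖F z‖ ≤ A * Real.exp (B * rho z)) {c₀ : ℂ} (hc₀ : F c₀ ≠ 0)
    (hz : ∀ n, F (a n) = 0)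
    (hint : ∀ x : ℕ → ℂ, (∀ n, ‖x n‖ ≤ 1) → ∃ g, Itp a p x g ∧
      ∃ A > (0 : ℝ), ∃ B > (0 : ℝ), ∀ z, ‖g z‖ ≤ A * Real.exp (B * rho z)) :
    ∃ f : ℂ → ℂ, (Differentiable ℂ f ∧
      ∃ A > (0 : ℝ), ∃ B > (0 : ℝ), ∀ z, ‖f z‖ ≤ A * Real.exp (B * rho z)) ∧
      (∃ z, f z ≠ 0) ∧ (∀ n, ∀ k < p n, iteratedDeriv k f (a n) = 0) ∧
      ∃ ε > (0 : ℝ), ∃ c > (0 : ℝ), ∀ n,
        ε * Real.exp (-(c * rho (a n))) ≤
          ‖iteratedDeriv (p n) f (a n)‖ / ((p n).factorial : ℝ) := by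
  classical
  obtain ⟨C, hC1, hC⟩ := uniform a p hint
  choose h hI hbd using hC
  obtain ⟨D, hD, hcount⟩ := count hF hA hB hb hc₀ a ha hz
  have hsum := summable_pow a c₀ D hD hcount
  set S : ℝ := ∑' n, ((1 + ‖a n - c₀‖) ^ 3)⁻¹ with hS
  have hS0 : 0 ≤ S := tsum_nonneg fun n => by positivity
  set w : ℕ → ℝ := fun n => 1 + ‖a n - c₀‖ with hw
  have hw1 : ∀ n, 1 ≤ w n := fun n => by
    have := norm_nonneg (a n - c₀); simp only [hw]; linarith
  have hw0 : ∀ n, 0 < w n := fun n => by linarith [hw1 n]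
  set c : ℕ → ℝ := fun n => ((w n) ^ 4)⁻¹ with hc
  have hcpos : ∀ n, 0 < c n := fun n => by have := hw0 n; simp only [hc]; positivity
  set Q : ℕ → ℕ := fun n => ⌈2 * (S + 1) * (w n) ^ 3⌉₊ with hQdef
  have hQ0 : ∀ n, 0 < Q n := fun n => by
    have := hw0 n
    exact Nat.ceil_pos.2 (by positivity)
  have hQge : ∀ n, 2 * (S + 1) * (w n) ^ 3 ≤ Q n := fun n => Nat.le_ceil _
  have hQle : ∀ n, (Q n : ℝ) ≤ 3 * (S + 1) * (w n) ^ 3 := fun n => by
    have h1 := Nat.ceil_lt_add_one (a := 2 * (S + 1) * (w n) ^ 3) (by have := hw0 n; positivity)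
    have h2 : (1 : ℝ) ≤ (S + 1) * (w n) ^ 3 := by
      have h3 : 1 ≤ (w n) ^ 3 := one_le_pow₀ (hw1 n)
      nlinarith
    have h4 : (Q n : ℝ) < 2 * (S + 1) * (w n) ^ 3 + 1 := h1
    linarith
  have hQsum : ∀ N, ∑ n ∈ Finset.range N, (1 / (Q n : ℝ)) < 1 := by
    intro N
    have h1 : ∀ n ∈ Finset.range N, 1 / (Q n : ℝ) ≤ (1 / (2 * (S + 1))) * ((w n) ^ 3)⁻¹ := by
      intro n _
      have h2 := hQge n
      have h3 : 0 < 2 * (S + 1) * (w n) ^ 3 := by have := hw0 n; positivity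
      calc 1 / (Q n : ℝ) ≤ 1 / (2 * (S + 1) * (w n) ^ 3) := one_div_le_one_div_of_le h3 h2
        _ = _ := by rw [one_div, one_div, mul_inv]
    have h4 : ∑ n ∈ Finset.range N, ((w n) ^ 3)⁻¹ ≤ S :=
      hsum.sum_le_tsum _ (fun n _ => by have := hw0 n; positivity)
    calc ∑ n ∈ Finset.range N, (1 / (Q n : ℝ))
        ≤ ∑ n ∈ Finset.range N, (1 / (2 * (S + 1))) * ((w n) ^ 3)⁻¹ := Finset.sum_le_sum h1
      _ = (1 / (2 * (S + 1))) * ∑ n ∈ Finset.range N, ((w n) ^ 3)⁻¹ := by rw [Finset.mul_sum]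
      _ ≤ (1 / (2 * (S + 1))) * S := by gcongr
      _ < 1 := by
          rw [one_div, inv_mul_lt_iff₀ (by positivity)]
          linarith
  -- the individual functions
  set φ : ℕ → ℂ → ℂ := fun n z => (z - a n) * h n z with hφ
  have hφd : ∀ n, Differentiable ℂ (φ n) := fun n =>
    (differentiable_id.sub_const _).mul (hI n).1
  have hwa : ∀ n, ‖a n‖ ≤ (1 + ‖c₀‖) * w n := by
    intro n
    have h1 : ‖a n‖ ≤ ‖a n - c₀‖ + ‖c₀‖ := by
      have := norm_add_le (a n - c₀) c₀
      rwa [sub_add_cancel] at this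
    have h2 := norm_nonneg c₀
    have h3 := norm_nonneg (a n - c₀)
    simp only [hw]
    nlinarith
  have hφb : ∀ n z, ‖φ n z‖ ≤ (2 + ‖c₀‖) * w n * (1 + ‖z‖) * (C * Real.exp (C * rho z)) := by
    intro n z
    simp only [hφ]
    rw [norm_mul]
    have h1 : ‖z - a n‖ ≤ (2 + ‖c₀‖) * w n * (1 + ‖z‖) := by
      have h2 := norm_sub_le z (a n)
      have h3 := hwa n
      have h4 := norm_nonneg z
      have h5 := norm_nonneg c₀
      have h6 := hw1 n
      have h7 : 0 ≤ ‖c₀‖ * w n := by positivity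
      have h8 : 0 ≤ ‖c₀‖ * w n * ‖z‖ := by positivity
      have h9 : ‖z‖ ≤ w n * ‖z‖ := by nlinarith
      nlinarith
    exact mul_le_mul h1 (hbd n z) (norm_nonneg _) (by have := hw0 n; positivity)
  have hcw : ∀ n, c n * w n = ((w n) ^ 3)⁻¹ := fun n => by
    have := (hw0 n).ne'
    simp only [hc]
    field_simp
  -- jets
  have hjet : ∀ n m, ∀ k < p n, iteratedDeriv k (φ m) (a n) = 0 := by
    intro n m k hk
    have hzero : ∀ κ < p n, (m = n → κ + 1 < p n) → iteratedDeriv κ (h m) (a n) = 0 := by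
      intro κ hκ hm
      have h1 := (hI m).2 n κ hκ
      have h2 : (if κ + 1 = p n then (Pi.single m (1 : ℂ) : ℕ → ℂ) n else 0) = 0 := by
        split_ifs with h3
        · by_cases hmn : m = n
          · exact absurd h3 (hm hmn).ne
          · exact Pi.single_eq_of_ne (Ne.symm hmn) _
        · rfl
      rw [h2, div_eq_zero_iff] at h1
      rcases h1 with h1 | h1
      · exact h1
      · exact absurd h1 (by exact_mod_cast (Nat.factorial_pos κ).ne')
    have hA1 : ∀ κ < p n, (a n - a m) * iteratedDeriv κ (h m) (a n) = 0 := by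
      intro κ hκ
      by_cases hmn : m = n
      · subst hmn; simp
      · rw [hzero κ hκ (fun h => absurd h hmn), mul_zero]
    cases k with
    | zero =>
      rw [iteratedDeriv_zero]
      have := hA1 0 hk
      rwa [iteratedDeriv_zero] at this
    | succ k =>
      simp only [hφ]
      rw [iteratedDeriv_lin_mul (hI m).1]
      simp only
      rw [hA1 (k + 1) hk, zero_add, hzero k (by omega) (fun _ => hk), mul_zero]
  have hjetn : ∀ n, iteratedDeriv (p n) (φ n) (a n) = ((p n).factorial : ℂ) := by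
    intro n
    obtain ⟨q, hq⟩ : ∃ q, p n = q + 1 := ⟨p n - 1, by have := hp n; omega⟩
    have h1 := (hI n).2 n q (by omega)
    rw [if_pos hq.symm, Pi.single_eq_same, div_eq_one_iff_eq (by
      exact_mod_cast (Nat.factorial_pos q).ne')] at h1
    rw [hq]
    simp only [hφ]
    rw [iteratedDeriv_lin_mul (hI n).1]
    simp only [sub_self, zero_mul, zero_add]
    rw [h1, Nat.factorial_succ]
    push_cast
    ring
  -- sums with bounded coefficients
  have hser : ∀ t : ℕ → ℝ, (∀ n, 0 ≤ t n ∧ t n ≤ 1) →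
      ∃ f : ℂ → ℂ, Differentiable ℂ f ∧
        (∀ z, ‖f z‖ ≤ ((2 + ‖c₀‖) * C * S) * ((1 + ‖z‖) * Real.exp (C * rho z))) ∧
        ∀ k z, HasSum (fun m => ((t m * c m : ℝ) : ℂ) * iteratedDeriv k (φ m) z)
          (iteratedDeriv k f z) := by
    intro t ht
    set ψ : ℕ → ℂ → ℂ := fun m z => ((t m * c m : ℝ) : ℂ) * φ m z with hψ
    have hψd : ∀ m, Differentiable ℂ (ψ m) := fun m => (hφd m).const_mul _
    have hψb : ∀ m z, ‖ψ m z‖ ≤ ((2 + ‖c₀‖) * C * ((1 + ‖z‖) * Real.exp (C * rho z))) *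
        ((w m) ^ 3)⁻¹ := by
      intro m z
      simp only [hψ]
      rw [norm_mul, Complex.norm_real, Real.norm_eq_abs, abs_mul, abs_of_pos (hcpos m),
        abs_of_nonneg (ht m).1]
      have h1 := hφb m z
      have h2 : t m * c m ≤ c m := by
        have := (ht m).2
        have := hcpos m
        nlinarith
      calc t m * c m * ‖φ m z‖ ≤ c m * ((2 + ‖c₀‖) * w m * (1 + ‖z‖) * (C * Real.exp (C * rho z))) := by
            have := hcpos m
            have := hw0 m
            gcongr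
        _ = ((2 + ‖c₀‖) * C * ((1 + ‖z‖) * Real.exp (C * rho z))) * (c m * w m) := by ring
        _ = _ := by rw [hcw]
    have hlu : TendstoLocallyUniformlyOn (fun (s : Finset ℕ) z => ∑ m ∈ s, ψ m z)
        (fun z => ∑' m, ψ m z) atTop univ := by
      rw [tendstoLocallyUniformlyOn_iff_forall_isCompact isOpen_univ]
      intro K _ hK
      obtain ⟨T, hT⟩ := hK.bddAbove_image (f := fun z =>
        (2 + ‖c₀‖) * C * ((1 + ‖z‖) * Real.exp (C * rho z)))
        (by have := continuous_rho; fun_prop)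
      apply tendstoUniformlyOn_tsum (u := fun m => |T| * ((w m) ^ 3)⁻¹) (hsum.mul_left _)
      intro m z hzK
      refine (hψb m z).trans ?_
      have h1 : (2 + ‖c₀‖) * C * ((1 + ‖z‖) * Real.exp (C * rho z)) ≤ |T| :=
        (hT ⟨z, hzK, rfl⟩).trans (le_abs_self _)
      have := hw0 m
      gcongr
    have hsd : ∀ s : Finset ℕ, Differentiable ℂ (fun z => ∑ m ∈ s, ψ m z) := fun s =>
      Differentiable.fun_sum fun m _ => hψd m
    refine ⟨fun z => ∑' m, ψ m z, ?_, ?_, ?_⟩
    · rw [← differentiableOn_univ]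
      exact hlu.differentiableOn (Eventually.of_forall fun s => (hsd s).differentiableOn)
        isOpen_univ
    · intro z
      have h1 : Summable fun m => ((2 + ‖c₀‖) * C * ((1 + ‖z‖) * Real.exp (C * rho z))) *
        ((w m) ^ 3)⁻¹ := hsum.mul_left _
      have h2 := tsum_of_norm_bounded h1.hasSum (fun m => hψb m z)
      rw [tsum_mul_left] at h2
      refine h2.trans (le_of_eq ?_)
      rw [← hS]
      ring
    · intro k z
      have h1 := tendsto_iteratedDeriv hsd hlu k z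
      have h2 : (fun s : Finset ℕ => iteratedDeriv k (fun z => ∑ m ∈ s, ψ m z) z) =
          fun s => ∑ m ∈ s, ((t m * c m : ℝ) : ℂ) * iteratedDeriv k (φ m) z := by
        funext s
        have hcd : ∀ m ∈ s, ContDiffAt ℂ k (ψ m) z := fun m _ => (hψd m).contDiff.contDiffAt
        rw [iteratedDeriv_fun_sum hcd]
        refine Finset.sum_congr rfl fun m _ => ?_
        simp only [hψ]
        rw [iteratedDeriv_const_mul_field]
      rw [h2] at h1
      exact h1
  -- the matrix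
  set M : ℕ → ℕ → ℂ := fun n m => iteratedDeriv (p n) (φ m) (a n) / ((p n).factorial : ℂ) with hMdef
  have hfac : ∀ n, ((p n).factorial : ℂ) ≠ 0 := fun n => by
    exact_mod_cast (Nat.factorial_pos (p n)).ne'
  have hMd : ∀ n, M n n = 1 := fun n => by
    simp only [hMdef]
    rw [hjetn n, div_self (hfac n)]
  have hMs : ∀ n, Summable fun m => c m * ‖M n m‖ := by
    intro n
    obtain ⟨f, _, _, hf⟩ := hser (fun _ => 1) (fun _ => ⟨zero_le_one, le_rfl⟩)
    have h1 := ((hf (p n) (a n)).summable.div_const ((p n).factorial : ℂ)).norm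
    refine h1.congr fun m => ?_
    simp only [hMdef]
    rw [mul_div_assoc, norm_mul, Complex.norm_real, Real.norm_eq_abs, one_mul,
      abs_of_pos (hcpos m)]
  obtain ⟨t, ht, hlow⟩ := select c hcpos Q hQ0 hQsum M hMd hMs
  obtain ⟨f, hfd, hfb, hf⟩ := hser t ht
  have hfjet : ∀ n, ∀ k < p n, iteratedDeriv k f (a n) = 0 := by
    intro n k hk
    have h1 := hf k (a n)
    have h2 : (fun m => ((t m * c m : ℝ) : ℂ) * iteratedDeriv k (φ m) (a n)) = fun _ => 0 := by
      funext m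
      rw [hjet n m k hk, mul_zero]
    rw [h2] at h1
    exact h1.unique hasSum_zero
  have hflow : ∀ n, c n / (2 * Q n) ≤ ‖iteratedDeriv (p n) f (a n)‖ / ((p n).factorial : ℝ) := by
    intro n
    have h1 := (hf (p n) (a n)).div_const ((p n).factorial : ℂ)
    have h2 := hlow n
    have h3 : (∑' m, ((t m * c m : ℝ) : ℂ) * M n m) =
        iteratedDeriv (p n) f (a n) / ((p n).factorial : ℂ) := by
      rw [← h1.tsum_eq]
      refine tsum_congr fun m => ?_
      simp only [hMdef]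
      ring
    rw [h3, norm_div, Complex.norm_natCast] at h2
    exact h2
  have hlow2 : ∀ n, (12 * (S + 1) * (2 + ‖c₀‖) ^ 7 * 2 ^ 7)⁻¹ * Real.exp (-(7 * rho (a n))) ≤
      c n / (2 * Q n) := by
    intro n
    have h1 : w n ≤ (2 + ‖c₀‖) * (2 * Real.exp (rho (a n))) := by
      have h2 := one_add_norm_le (a n)
      have h3 : w n ≤ 1 + ‖a n‖ + ‖c₀‖ := by
        simp only [hw]
        have := norm_sub_le (a n) c₀
        linarith
      have h4 := norm_nonneg c₀
      have h5 : 1 ≤ 1 + ‖a n‖ := by linarith [norm_nonneg (a n)]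
      have h6 : w n ≤ (2 + ‖c₀‖) * (1 + ‖a n‖) := by nlinarith [norm_nonneg (a n)]
      exact h6.trans (by gcongr)
    have h7 : (w n) ^ 7 ≤ (2 + ‖c₀‖) ^ 7 * 2 ^ 7 * Real.exp (7 * rho (a n)) := by
      calc (w n) ^ 7 ≤ ((2 + ‖c₀‖) * (2 * Real.exp (rho (a n)))) ^ 7 := by
            have := (hw0 n).le
            gcongr
        _ = (2 + ‖c₀‖) ^ 7 * 2 ^ 7 * (Real.exp (rho (a n))) ^ 7 := by ring
        _ = _ := by rw [← Real.exp_nat_mul]; norm_num
    have h8 : 2 * (Q n : ℝ) * (w n) ^ 4 ≤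
        12 * (S + 1) * (2 + ‖c₀‖) ^ 7 * 2 ^ 7 * Real.exp (7 * rho (a n)) := by
      have h9 := hQle n
      have h10 := hw0 n
      calc 2 * (Q n : ℝ) * (w n) ^ 4 ≤ 2 * (3 * (S + 1) * (w n) ^ 3) * (w n) ^ 4 := by gcongr
        _ = 6 * (S + 1) * (w n) ^ 7 := by ring
        _ ≤ 12 * (S + 1) * (w n) ^ 7 := by
            have : 0 ≤ (S + 1) * (w n) ^ 7 := by positivity
            nlinarith
        _ ≤ 12 * (S + 1) * ((2 + ‖c₀‖) ^ 7 * 2 ^ 7 * Real.exp (7 * rho (a n))) := by gcongr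
        _ = _ := by ring
    have hQn : (0 : ℝ) < Q n := by exact_mod_cast hQ0 n
    have h11 : c n / (2 * Q n) = (2 * (Q n : ℝ) * (w n) ^ 4)⁻¹ := by
      simp only [hc]
      rw [div_eq_mul_inv, ← mul_inv]
      congr 1
      ring
    rw [h11, Real.exp_neg, ← mul_inv]
    have := hw0 n
    exact inv_anti₀ (by positivity) h8
  refine ⟨f, ⟨hfd, (2 + ‖c₀‖) * C * S * 2 + 1, by positivity, C + 1, by linarith, ?_⟩, ?_, hfjet,
    (12 * (S + 1) * (2 + ‖c₀‖) ^ 7 * 2 ^ 7)⁻¹, by positivity, 7, by norm_num,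
    fun n => (hlow2 n).trans (hflow n)⟩
  · intro z
    refine (hfb z).trans ?_
    have h1 := one_add_norm_le z
    have h2 : 0 ≤ (2 + ‖c₀‖) * C * S := by positivity
    calc (2 + ‖c₀‖) * C * S * ((1 + ‖z‖) * Real.exp (C * rho z))
        ≤ (2 + ‖c₀‖) * C * S * ((2 * Real.exp (rho z)) * Real.exp (C * rho z)) := by gcongr
      _ = ((2 + ‖c₀‖) * C * S * 2) * Real.exp ((C + 1) * rho z) := by
          rw [mul_assoc 2, ← Real.exp_add]
          ring_nf
      _ ≤ ((2 + ‖c₀‖) * C * S * 2 + 1) * Real.exp ((C + 1) * rho z) := by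
          gcongr
          linarith
  · by_contra hcon
    push Not at hcon
    have h1 : f = fun _ => 0 := funext hcon
    have h2 := (hlow2 0).trans (hflow 0)
    rw [h1] at h2
    have h3 : iteratedDeriv (p 0) (fun _ : ℂ => (0 : ℂ)) (a 0) = 0 := by
      rw [iteratedDeriv_const]
      simp
    rw [h3, norm_zero, zero_div] at h2
    have h4 : 0 < (12 * (S + 1) * (2 + ‖c₀‖) ^ 7 * 2 ^ 7)⁻¹ * Real.exp (-(7 * rho (a 0))) := by
      positivity
    linarith

end Pool.Agent.R245.UI
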