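import Pool.Agent.W778.UI.A

/-!
Uniform bounds for the functions interpolating the unit arrays (Baire category and Montel).
-/

set_option autoImplicit false

namespace Pool.Agent.R245.UI

open Set Filter Topology Metric Pool.Agent.W778.UI

/-- `g` is entire, and its Taylor coefficients at `a n` of order `κ < p n` vanish except the last one,
of order `p n - 1`, which is `x n`. -/
def Itp (a : ℕ → ℂ) (p : ℕ → ℕ) (x : ℕ → ℂ) (g : ℂ → ℂ) : Prop :=
  Differentiable ℂ g ∧ ∀ n, ∀ κ < p n,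
    iteratedDeriv κ g (a n) / (κ.factorial : ℂ) = if κ + 1 = p n then x n else 0

/-- The unit disc. -/
abbrev UD := closedBall (0 : ℂ) 1

/-- Coefficients interpolated by a function with bound `J`. -/
def RJ (a : ℕ → ℂ) (p : ℕ → ℕ) (J : ℕ) : Set (ℕ → UD) :=
  {x | ∃ g, Itp a p (fun n => (x n : ℂ)) g ∧ ∀ z, ‖g z‖ ≤ J * Real.exp (J * rho z)}

lemma iteratedDeriv_sub_smul {f g : ℂ → ℂ} (hf : Differentiable ℂ f) (hg : Differentiable ℂ g)
    (c : ℂ) (k : ℕ) (z : ℂ) :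
    iteratedDeriv k (fun w => c * (f w - g w)) z =
      c * (iteratedDeriv k f z - iteratedDeriv k g z) := by
  have hf' : ContDiffAt ℂ k f z := (hf.contDiff).contDiffAt
  have hg' : ContDiffAt ℂ k g z := (hg.contDiff).contDiffAt
  have h1 : iteratedDeriv k (fun w => f w - g w) z = iteratedDeriv k f z - iteratedDeriv k g z :=
    iteratedDeriv_fun_sub hf' hg'
  rw [iteratedDeriv_const_mul_field, h1]

lemma isClosed_RJ (a : ℕ → ℂ) (p : ℕ → ℕ) (J : ℕ) : IsClosed (RJ a p J) := by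
  apply IsSeqClosed.isClosed
  intro x y hx hxy
  choose g hg hgb using hx
  set U : Ultrafilter ℕ := hyperfilter ℕ with hU
  have hUle : (U : Filter ℕ) ≤ atTop := by
    rw [← Nat.cofinite_eq_atTop]
    exact hyperfilter_le_cofinite
  obtain ⟨Φ, hΦd, hΦb, hΦ⟩ := montel_entire g (fun n => (hg n).1)
    (fun z => (J : ℝ) * Real.exp (J * rho z)) (by have := continuous_rho; fun_prop) hgb U
  refine ⟨Φ, ⟨hΦd, ?_⟩, hΦb⟩
  intro n κ hκ
  have h1 := tendsto_iteratedDeriv (fun i => (hg i).1) hΦ κ (a n)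
  have h2 : Tendsto (fun i => iteratedDeriv κ (g i) (a n) / (κ.factorial : ℂ)) (U : Filter ℕ)
      (𝓝 (iteratedDeriv κ Φ (a n) / (κ.factorial : ℂ))) := h1.div_const _
  have h3 : (fun i => iteratedDeriv κ (g i) (a n) / (κ.factorial : ℂ)) =
      fun i => if κ + 1 = p n then (x i n : ℂ) else 0 := by
    funext i
    exact (hg i).2 n κ hκ
  rw [h3] at h2
  have h4 : Tendsto (fun i => if κ + 1 = p n then (x i n : ℂ) else 0) (U : Filter ℕ)
      (𝓝 (if κ + 1 = p n then (y n : ℂ) else 0)) := by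
    split_ifs
    · have h5 := (tendsto_pi_nhds.1 hxy n).mono_left hUle
      exact (continuous_subtype_val.tendsto _).comp h5
    · exact tendsto_const_nhds
  exact tendsto_nhds_unique h2 h4

/-- The functions with one nonzero coefficient can be chosen with a uniform bound. -/
theorem uniform (a : ℕ → ℂ) (p : ℕ → ℕ)
    (hint : ∀ x : ℕ → ℂ, (∀ n, ‖x n‖ ≤ 1) → ∃ g, Itp a p x g ∧
      ∃ A > (0 : ℝ), ∃ B > (0 : ℝ), ∀ z, ‖g z‖ ≤ A * Real.exp (B * rho z)) :
    ∃ C : ℝ, 1 ≤ C ∧ ∀ n, ∃ g, Itp a p (Pi.single n 1) g ∧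
      ∀ z, ‖g z‖ ≤ C * Real.exp (C * rho z) := by
  classical
  have hall : ∀ x : ℕ → ℂ, (∀ n, ‖x n‖ ≤ 1) → ∃ J : ℕ, ∃ g, Itp a p x g ∧
      ∀ z, ‖g z‖ ≤ J * Real.exp (J * rho z) := by
    intro x hx
    obtain ⟨g, hg, A, hA, B, hB, hb⟩ := hint x hx
    refine ⟨⌈max A B⌉₊, g, hg, fun z => (hb z).trans ?_⟩
    have h1 : max A B ≤ (⌈max A B⌉₊ : ℝ) := Nat.le_ceil _
    have h2 : A ≤ (⌈max A B⌉₊ : ℝ) := (le_max_left _ _).trans h1
    have h3 : B ≤ (⌈max A B⌉₊ : ℝ) := (le_max_right _ _).trans h1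
    have h4 := rho_nonneg z
    gcongr
  have hcov : (⋃ J : ℕ, RJ a p J) = univ := by
    refine eq_univ_of_forall fun x => mem_iUnion.2 ?_
    obtain ⟨J, g, hg, hb⟩ := hall (fun n => (x n : ℂ)) (fun n => by
      have := (x n).2
      rwa [mem_closedBall_zero_iff] at this)
    exact ⟨J, g, hg, hb⟩
  obtain ⟨J, hJ⟩ := nonempty_interior_of_iUnion_of_closed (fun J => isClosed_RJ a p J) hcov
  obtain ⟨x, hx⟩ := hJ
  have hopen : IsOpen (interior (RJ a p J)) := isOpen_interior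
  rw [isOpen_pi_iff] at hopen
  obtain ⟨I, u, hu, hsub⟩ := hopen x hx
  have hxJ : x ∈ RJ a p J := interior_subset hx
  obtain ⟨g₀, hg₀, hb₀⟩ := hxJ
  -- outside the finite set
  have hout : ∀ n, n ∉ I → ∃ g, Itp a p (Pi.single n 1) g ∧
      ∀ z, ‖g z‖ ≤ (2 * J : ℝ) * Real.exp (J * rho z) := by
    intro n hn
    obtain ⟨w, hw⟩ : ∃ w : UD, 1 ≤ ‖(w : ℂ) - (x n : ℂ)‖ := by
      by_cases h : 1 ≤ ‖(1 : ℂ) - (x n : ℂ)‖
      · exact ⟨⟨1, by simp⟩, h⟩
      · refine ⟨⟨-1, by simp⟩, ?_⟩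
        push Not at h
        have h1 : ‖(2 : ℂ)‖ ≤ ‖(1 : ℂ) - (x n : ℂ)‖ + ‖(-1 : ℂ) - (x n : ℂ)‖ := by
          have : (2 : ℂ) = (1 - (x n : ℂ)) - (-1 - (x n : ℂ)) := by ring
          calc ‖(2 : ℂ)‖ = ‖(1 - (x n : ℂ)) - (-1 - (x n : ℂ))‖ := by rw [← this]
            _ ≤ _ := norm_sub_le _ _
        rw [Complex.norm_ofNat] at h1
        show 1 ≤ ‖(-1 : ℂ) - (x n : ℂ)‖
        linarith
    have hmem : Function.update x n w ∈ RJ a p J := by
      apply interior_subset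
      apply hsub
      intro i hi
      have : i ≠ n := fun h => hn (h ▸ hi)
      rw [Function.update_of_ne this]
      exact (hu i hi).2
    obtain ⟨g₁, hg₁, hb₁⟩ := hmem
    set d : ℂ := (w : ℂ) - (x n : ℂ) with hd
    have hd0 : d ≠ 0 := by
      intro h
      rw [h, norm_zero] at hw
      linarith
    refine ⟨fun z => d⁻¹ * (g₁ z - g₀ z), ⟨?_, ?_⟩, ?_⟩
    · exact (hg₁.1.sub hg₀.1).const_mul _
    · intro m κ hκ
      rw [iteratedDeriv_sub_smul hg₁.1 hg₀.1]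
      have h1 := hg₁.2 m κ hκ
      have h0 := hg₀.2 m κ hκ
      have e : d⁻¹ * (iteratedDeriv κ g₁ (a m) - iteratedDeriv κ g₀ (a m)) / (κ.factorial : ℂ) =
          d⁻¹ * (iteratedDeriv κ g₁ (a m) / (κ.factorial : ℂ) -
            iteratedDeriv κ g₀ (a m) / (κ.factorial : ℂ)) := by ring
      rw [e, h1, h0]
      by_cases hm : m = n
      · subst hm
        simp only [Function.update_self, Pi.single_eq_same]
        split_ifs
        · rw [← hd, inv_mul_cancel₀ hd0]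
        · simp
      · simp only [Function.update_of_ne hm, Pi.single_eq_of_ne hm]
        split_ifs <;> simp
    · intro z
      rw [norm_mul, norm_inv]
      have h1 : ‖d‖⁻¹ ≤ 1 := inv_le_one_of_one_le₀ hw
      have h2 : ‖g₁ z - g₀ z‖ ≤ (2 * J : ℝ) * Real.exp (J * rho z) := by
        have := norm_sub_le (g₁ z) (g₀ z)
        have h3 := hb₁ z
        have h4 := hb₀ z
        linarith
      calc ‖d‖⁻¹ * ‖g₁ z - g₀ z‖ ≤ 1 * ((2 * J : ℝ) * Real.exp (J * rho z)) := by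
            gcongr
        _ = _ := one_mul _
  -- each single one
  have hin : ∀ n, ∃ K : ℕ, ∃ g, Itp a p (Pi.single n 1) g ∧
      ∀ z, ‖g z‖ ≤ K * Real.exp (K * rho z) := by
    intro n
    obtain ⟨K, g, hg, hb⟩ := hall (Pi.single n 1) (fun m => by
      by_cases h : m = n
      · subst h; simp
      · rw [Pi.single_eq_of_ne h]; simp)
    exact ⟨K, g, hg, hb⟩
  choose K hK using hin
  set C : ℕ := 2 * J + 1 + ∑ n ∈ I, K n with hC
  refine ⟨C, by rw [hC]; push_cast; have : (0:ℝ) ≤ 2 * J + ∑ n ∈ I, (K n : ℝ) := by positivity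
                linarith, fun n => ?_⟩
  by_cases hn : n ∈ I
  · obtain ⟨g, hg, hb⟩ := hK n
    refine ⟨g, hg, fun z => (hb z).trans ?_⟩
    have h1 : K n ≤ C := by
      have : K n ≤ ∑ n ∈ I, K n := Finset.single_le_sum (fun _ _ => Nat.zero_le _) hn
      omega
    have h2 : (K n : ℝ) ≤ C := by exact_mod_cast h1
    have h4 := rho_nonneg z
    gcongr
  · obtain ⟨g, hg, hb⟩ := hout n hn
    refine ⟨g, hg, fun z => (hb z).trans ?_⟩
    have h1 : 2 * J ≤ C := by omega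
    have h1' : J ≤ C := by omega
    have h2 : (2 * J : ℝ) ≤ C := by exact_mod_cast h1
    have h3 : (J : ℝ) ≤ C := by exact_mod_cast h1'
    have h4 := rho_nonneg z
    gcongr

end Pool.Agent.R245.UI
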